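import Pool.Agent.H397Z.PinchFin

/-!
For every `n ≥ 4` there is a Ricci flow invariant curvature cone with the pinching property that
is maximal for inclusion among such cones.
-/

open Pool.Agent.H397Z.Curv in
theorem Pool.Agent.Results.MP_952e48_gt.MaximalCone.result (n : ℕ) (hn : 4 ≤ n) :
    ∃ M : Set (CurvOp n), IsPinchingCone M ∧
      ∀ C : Set (CurvOp n), IsPinchingCone C → M ⊆ C → C = M := by
  obtain ⟨C, hC, -⟩ := exists_not_IC1 hn
  obtain ⟨M, -, hM⟩ := exists_maximal C hC
  exact ⟨M, hM.1, fun D hD hMD => Set.Subset.antisymm (hM.2 hD hMD) hMD⟩
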