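import Pool.Agent.H397Z.PinchFin

/-!
For every `n ≥ 4` there is a Ricci flow invariant curvature cone with the pinching property that
is not contained in `C_{IC1}`.
-/

open Pool.Agent.H397Z.Curv in
theorem Pool.Agent.Results.MP_952e48_gt.NotInIC1.result (n : ℕ) (hn : 4 ≤ n) :
    ∃ C : Set (CurvOp n), IsPinchingCone C ∧ ¬ C ⊆ CIC1 n :=
  exists_not_IC1 hn
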